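import Pool.Agent.Helper59.LUC.Goals

set_option autoImplicit false

namespace Pool.Agent.Helper59.LUC

namespace PkRK4

lemma Vmod (T M : ℤ) (p : ℤ) (hp : p ∣ M) (n : ℕ) :
    p ∣ V T (M ^ 2) (n + 1) - T ^ (n + 1) := by
  induction n using Nat.twoStepInduction with
  | zero => simp [V]
  | one =>
    have e : V T (M ^ 2) (1 + 1) = T * T - M ^ 2 * 2 := rfl
    rw [e]
    have : T * T - M ^ 2 * 2 - T ^ (1 + 1) = M * (-(M * 2)) := by ring
    rw [this]
    exact Dvd.dvd.mul_right hp _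
  | more n ih1 ih2 =>
    have e : V T (M ^ 2) (n + 2 + 1) = T * V T (M ^ 2) (n + 1 + 1) - M ^ 2 * V T (M ^ 2) (n + 1) := rfl
    rw [e]
    obtain ⟨c, hc⟩ := ih2
    obtain ⟨m, hm⟩ := hp
    refine ⟨T * c - m * M * V T (M ^ 2) (n + 1), ?_⟩
    have h1 : V T (M ^ 2) (n + 1 + 1) = T ^ (n + 1 + 1) + p * c := by linarith
    rw [h1]
    calc _ = T * (p * c) - M * M * V T (M ^ 2) (n + 1) := by ring
      _ = T * (p * c) - (p * m) * M * V T (M ^ 2) (n + 1) := by rw [← hm]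
      _ = _ := by ring

theorem thm : G_RK4 := by
  intro T M η h N hN n p hn hp hpM
  have hpI : Prime (p : ℤ) := Nat.prime_iff_prime_int.mp hp
  have h1 : ¬ (p : ℤ) ∣ W T M n := by
    intro hd
    obtain ⟨k, rfl⟩ : ∃ k, n = k + 1 := ⟨n - 1, by omega⟩
    have h2 := Vmod T M p hpM k
    have h3 : (p : ℤ) ∣ 2 * M ^ (k + 1) := by
      apply Dvd.dvd.mul_left
      exact Dvd.dvd.trans hpM (dvd_pow_self M (by omega))
    have h4 : (p : ℤ) ∣ T ^ (k + 1) := by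
      have : T ^ (k + 1) = 2 * M ^ (k + 1) - W T M (k + 1) - (V T (M ^ 2) (k + 1) - T ^ (k + 1)) := by
        unfold W; ring
      rw [this]
      exact dvd_sub (dvd_sub h3 hd) h2
    have h5 : (p : ℤ) ∣ T := hpI.dvd_of_dvd_pow h4
    have h6 : IsUnit (p : ℤ) := h.hTM.isUnit_of_dvd' h5 hpM
    exact hpI.not_isUnit h6
  refine ⟨h1, fun hd => h1 ?_⟩
  rw [← hN.prod n hn]
  have h7 : (N n : ℤ) ∣ ∏ d ∈ n.divisors, (N d : ℤ) :=
    Finset.dvd_prod_of_mem (fun d => (N d : ℤ)) (Nat.mem_divisors_self n (by omega))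
  exact Dvd.dvd.trans (by exact_mod_cast hd) h7

end PkRK4

end Pool.Agent.Helper59.LUC
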